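import Mathlib
import Pool.Agent.Y827.RO.NarG

/-! Exact sets of primes among linear forms along narrow progressions, at every scale, in `[N / 16, N]`. -/

set_option autoImplicit false

namespace Pool.Agent.K1H50.AS

open Finset Filter Topology
open Pool.Agent.Y827.RO Pool.Agent.Y827.GS

/-- the number of the `n`, `N / 16 ≤ n ≤ N`, such that at `n, n + d, ..., n + (l-1) d` exactly the forms in
`E` are prime -/
noncomputable def cntX {T K : ℕ} (H : Fin T → Fin K → ℤ × ℤ) (E : Finset (Fin T × Fin K))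
    (l d N : ℕ) : ℕ :=
  (open Classical in ((Icc 1 N).filter (fun n : ℕ => (N : ℝ) / 16 ≤ n ∧ ∀ j < l, ∀ g i,
    (((H g i).1 * ((n + j * d : ℕ) : ℤ) + (H g i).2).toNat.Prime ↔ (g, i) ∈ E))).card)

/-- many narrow progressions with exactly the primes in `E` -/
def QX {T K : ℕ} (H : Fin T → Fin K → ℤ × ℤ) (E : Finset (Fin T × Fin K)) (l C N : ℕ) : Prop :=
  ∃ d : ℕ, 1 ≤ d ∧ (d : ℝ) ≤ (Real.log N) ^ C ∧ (N : ℝ) / (Real.log N) ^ C ≤ (cntX H E l d N : ℝ)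

open Classical in
theorem narX (T M : ℕ) (hT : 1 ≤ T) (hTM : (18 / 5 : ℝ) * M < T) : ∃ K : ℕ, 1 ≤ K ∧
    ∀ H : Fin T → Fin K → ℤ × ℤ, Function.Injective (fun x : Fin T × Fin K => H x.1 x.2) →
    (∀ g i, 0 < (H g i).1 ∧ IsCoprime (H g i).1 (H g i).2) →
    (∀ p : ℕ, p.Prime → p ≤ T * K → ∃ r : ℤ, ∀ g i, ¬ (p : ℤ) ∣ (H g i).1 * r + (H g i).2) →
    ∀ l : ℕ, ∃ C : ℕ, ∀ᶠ N : ℕ in atTop, ∃ E : Finset (Fin T × Fin K),
      M + 1 ≤ (E.image Prod.fst).card ∧ QX H E l C N := by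
  obtain ⟨K, hK, δ, hδ, H0⟩ := lamE0 T M hT hTM
  refine ⟨K, hK, fun H hinj hpos hloc l₀ => ?_⟩
  obtain ⟨A, hA⟩ := adf_ev (univ.image (fun x : Fin T × Fin K => H x.1 x.2)) (by
    intro f hf
    obtain ⟨x, -, rfl⟩ := mem_image.1 hf
    exact hpos x.1 x.2)
  obtain ⟨s₀, c, hc, H1⟩ := H0 A
  obtain ⟨C, hC⟩ := narGen H hinj hpos δ c hδ hc s₀ (max l₀ 2) (le_max_right _ _)
  refine ⟨C, ?_⟩
  filter_upwards [H1, hA, hC] with N hN hAN hCN
  obtain ⟨s, E, hs, hs1, hs2, hE, hcard⟩ := hN H hinj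
    (fun g i => hAN _ (mem_image.2 ⟨(g, i), mem_univ _, rfl⟩)) hloc
  refine ⟨E, hE, ?_⟩
  obtain ⟨d, hd1, hd2, hd3⟩ := hCN s hs ⟨hs1, hs2⟩ (Re H δ s E N) (by
    intro m hm
    unfold Re at hm
    obtain ⟨h4, h5, h6, h7, -⟩ := mem_filter.1 hm
    rw [mem_Icc] at h4
    exact ⟨h4.1, h4.2, h5, h6, h7⟩) hcard
  refine ⟨d, hd1, hd2, hd3.trans ?_⟩
  rw [Nat.cast_le]
  unfold cntX
  apply card_le_card
  intro u hu
  obtain ⟨hu1, hu2⟩ := mem_filter.1 hu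
  refine mem_filter.2 ⟨hu1, ?_, fun j hj g i => ?_⟩
  · have h4 := hu2 0 (lt_of_lt_of_le (by norm_num) (le_max_right l₀ 2))
    unfold Re at h4
    have h5 := (mem_filter.1 h4).2.1
    simpa using h5
  · have h4 := hu2 j (lt_of_lt_of_le hj (le_max_left _ _))
    unfold Re at h4
    exact (mem_filter.1 h4).2.2.2.2 g i

theorem QX_mono {T K : ℕ} {H : Fin T → Fin K → ℤ × ℤ} {E : Finset (Fin T × Fin K)} {l C C' N : ℕ}
    (hC : C ≤ C') (hN : 1 ≤ Real.log N) (h : QX H E l C N) : QX H E l C' N := by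
  obtain ⟨d, h1, h2, h3⟩ := h
  refine ⟨d, h1, h2.trans (pow_le_pow_right₀ hN hC), le_trans ?_ h3⟩
  exact div_le_div_of_nonneg_left (Nat.cast_nonneg _) (by positivity) (pow_le_pow_right₀ hN hC)

end Pool.Agent.K1H50.AS
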