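import Mathlib
import Pool.Agent.K1H50.AS.NarX
import Pool.Agent.K1H50.LM.Cl

/-! The good sets of a fixed finite family of linear forms, at every scale, along narrow progressions. -/

set_option autoImplicit false

namespace Pool.Agent.K1H50.AS

open Finset Filter Topology
open Pool.Agent.Y827.RO Pool.Agent.K1H50.LM

open Classical in
/-- the number of the `n`, `N / 16 ≤ n ≤ N`, at which all the forms of `T` have prime absolute values, also at
`n + d, ..., n + (l - 1) d` -/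
noncomputable def cntP (T : Finset (ℤ × ℤ)) (l d N : ℕ) : ℕ :=
  ((Icc 1 N).filter (fun n : ℕ => (N : ℝ) / 16 ≤ n ∧ ∀ j < l,
    ∀ f ∈ T, (f.1 * ((n + j * d : ℕ) : ℤ) + f.2).natAbs.Prime)).card

/-- many narrow progressions -/
def GoodP (l C N : ℕ) (T : Finset (ℤ × ℤ)) : Prop :=
  ∃ d : ℕ, 1 ≤ d ∧ (d : ℝ) ≤ (Real.log N) ^ C ∧ (N : ℝ) / (Real.log N) ^ C ≤ (cntP T l d N : ℝ)

/-- the conclusion for one class -/
def ClsF (k : ℕ) (β : ℝ) : Prop :=
  ∃ n0 z0 : ℕ, ∀ (V : Finset (ℤ × ℤ)) (n : ℤ), (∀ f ∈ V, 0 < f.1 ∧ IsCoprime f.1 f.2) →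
    (∀ f ∈ V, ∀ p : ℕ, p.Prime → p ≤ z0 → ¬ (p : ℤ) ∣ f.1 * n + f.2) → n0 ≤ V.card →
    ∀ l : ℕ, ∃ C : ℕ, ∀ᶠ N : ℕ in atTop, β * (V.card.choose (k + 1)) ≤
      (open Classical in ((V.powersetCard (k + 1)).filter (GoodP l C N)).card : ℝ)

open Classical in
theorem clsF (T M k : ℕ) (β : ℝ) (hT : 1 ≤ T) (hTM : (18 / 5 : ℝ) * M < T) (hd : DensP T (M + 1) k β) :
    ClsF k β := by
  obtain ⟨K0, hK0, H0⟩ := narX T M hT hTM
  obtain ⟨n0, hd⟩ := hd K0 hK0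
  refine ⟨n0, T * K0, fun V n hV hVn hcard l => ?_⟩
  have hC : ∀ B : Fin T × Fin K0 → V, ∃ C : ℕ, Function.Injective B → ∀ᶠ N : ℕ in atTop,
      ∃ E : Finset (Fin T × Fin K0), M + 1 ≤ (E.image Prod.fst).card ∧
        QX (fun g i => ((B (g, i) : V) : ℤ × ℤ)) E l C N := by
    intro B
    by_cases hB : Function.Injective B
    · obtain ⟨C, hC⟩ := H0 (fun g i => ((B (g, i) : V) : ℤ × ℤ)) (fun x y hxy => hB (Subtype.ext hxy))
        (fun g i => hV _ (B (g, i)).2)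
        (fun p hp hpk => ⟨n, fun g i => hVn _ (B (g, i)).2 p hp hpk⟩) l
      exact ⟨C, fun _ => hC⟩
    · exact ⟨0, fun h => absurd h hB⟩
  choose Cf hCf using hC
  refine ⟨∑ B : Fin T × Fin K0 → V, Cf B, ?_⟩
  have hall : ∀ᶠ N : ℕ in atTop, ∀ B : Fin T × Fin K0 → V, Function.Injective B →
      ∃ E : Finset (Fin T × Fin K0), M + 1 ≤ (E.image Prod.fst).card ∧
        QX (fun g i => ((B (g, i) : V) : ℤ × ℤ)) E l (Cf B) N := by
    rw [eventually_all]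
    intro B
    by_cases hB : Function.Injective B
    · filter_upwards [hCf B hB] with N hN _ using hN
    · exact Eventually.of_forall fun N h => absurd h hB
  have hlog : ∀ᶠ N : ℕ in atTop, 1 ≤ Real.log N :=
    (Real.tendsto_log_atTop.comp tendsto_natCast_atTop_atTop).eventually_ge_atTop _
  filter_upwards [hall, hlog] with N hN hNl
  refine hd V (GoodP l (∑ B : Fin T × Fin K0 → V, Cf B) N) hcard ?_
  intro B' hBinj hBV
  obtain ⟨B, hB⟩ : ∃ B : Fin T × Fin K0 → V, B = fun x => ⟨B' x, hBV x⟩ := ⟨_, rfl⟩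
  have hBi : Function.Injective B := by
    intro x y hxy
    rw [hB] at hxy
    exact hBinj (congrArg Subtype.val hxy)
  obtain ⟨E, hE, hQ⟩ := hN B hBi
  have hQ' := QX_mono (single_le_sum (f := Cf) (fun _ _ => Nat.zero_le _) (mem_univ B)) hNl hQ
  have hex : ∀ g ∈ E.image Prod.fst, ∃ i, (g, i) ∈ E := by
    intro g hg
    obtain ⟨⟨g', i⟩, h1, h2⟩ := mem_image.1 hg
    exact ⟨i, by rw [← h2]; exact h1⟩
  have : Nonempty (Fin K0) := ⟨⟨0, hK0⟩⟩
  choose! cc hcc using hex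
  refine ⟨E.image Prod.fst, cc, hE, fun U hU _ => ?_⟩
  obtain ⟨d, h1, h2, h3⟩ := hQ'
  refine ⟨d, h1, h2, h3.trans ?_⟩
  rw [Nat.cast_le]
  unfold cntX cntP
  apply card_le_card
  intro m hm
  rw [mem_filter] at hm ⊢
  refine ⟨hm.1, hm.2.1, fun j hj f hf => ?_⟩
  obtain ⟨i, hi, hif⟩ := hU f hf
  have h4 := (hm.2.2 j hj i (cc i)).2 (hcc i hi)
  rw [hB] at h4
  have h5 := natAbs_of_toNat h4
  rw [← hif]
  exact h5

theorem clsF5 (k : ℕ) (hk : 1 ≤ k) (ε : ℝ) (hε : 0 < ε) : ClsF k ((5 / 18 : ℝ) ^ k - ε) := by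
  obtain ⟨m, hm, h⟩ := dens5 k hk ε hε
  have e : 5 * m = (5 * m - 1) + 1 := by omega
  refine clsF (18 * m) (5 * m - 1) k _ (by omega) ?_ ?_
  · rw [Nat.cast_sub (by omega)]
    push_cast
    linarith
  · intro L hL
    obtain ⟨n0, h0⟩ := h L hL
    refine ⟨n0, fun V good hV hB => ?_⟩
    rw [← e] at hB
    exact h0 _ V good hV hB

theorem clsF3 (ε : ℝ) (hε : 0 < ε) : ClsF 1 ((1 / 3 : ℝ) - ε) := by
  refine clsF 4 1 1 _ (by norm_num) (by norm_num) ?_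
  intro L hL
  obtain ⟨n0, h0⟩ := dens3 ε hε L hL
  exact ⟨n0, fun V good hV hB => h0 _ V good hV hB⟩

end Pool.Agent.K1H50.AS
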