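import Mathlib
import Pool.Agent.Y863.AA.Cls
import Pool.Agent.Y863.AU.Arr
import Pool.Agent.K1H50.NP.CoreA

/-!
# Almost all members of the sequence of maps `g ^ k * f`, for an abstract property: finitely many forms

The argument is that of `Pool.Agent.K1H50.NP.coreA`; the finite set of the systems of forms is stated.
-/

set_option autoImplicit false

namespace Pool.Agent.K1H50.AS

open Finset Filter Pool.Agent.W25.IT Pool.Agent.Y863.AA Pool.Agent.Y863.AU Nat Pool.Agent.K1H50.NP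

open Classical in
/-- **The core theorem.** -/
theorem coreX (T K M : ℕ) (hT : 1 ≤ T) (hK : 1 ≤ K) (w : ℕ) (e : Fin T → ℕ)
    (he : StrictMono e) (hew : ∀ γ, e γ ≤ w) (ε : ℝ) (hε : 0 < ε) : ∃ L : ℕ,
    ∀ m d d' : ℕ, 1 ≤ m → 1 ≤ d → 1 ≤ d' → ∀ u H : ℕ, L * m ^ ((w + 1) ^ 2) ≤ H →
    ∀ f g : Af, f.d = d → g.d = d' → f.Adm → g.Adm → g ≠ 1 → f * g = g ^ m * f →
    ∃ FF : Finset (Fin T → Fin K → Af), (∀ F ∈ FF, (∀ γ i, 1 ≤ (F γ i).d) ∧
      Function.Injective (fun z : Fin T × Fin K => F z.1 z.2) ∧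
      (∀ p : ℕ, p.Prime → ∃ y : ℤ, ∀ γ i, ¬ (p : ℤ) ∣ (F γ i).d * y + (F γ i).a)) ∧
    ∀ Gd : Af → ℕ → Prop,
    (∀ F ∈ FF, ∃ (S : Finset (Fin T)) (σ : Fin T → Fin K), M + 1 ≤ S.card ∧
        ∀ γ ∈ S, ∀ δ ∈ S, ∀ k : ℕ, u < k → k ≤ u + H → (g ^ k * f).Adm → g ^ k * f ≠ 1 →
          ∀ j : ℕ, 1 ≤ j → j ≤ w →
          (g ^ k * f) ^ j * F γ (σ γ) = F δ (σ δ) → Gd (g ^ k * f) j) →
      (((Ioc (u : ℤ) (u + H)).filter (fun k : ℤ => (g ^ k.toNat * f).Adm ∧ g ^ k.toNat * f ≠ 1 ∧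
        AdE e (g ^ k.toNat * f).a (g ^ k.toNat * f).d ∧
        ¬ ∃ S : Finset (Fin T), M + 1 ≤ S.card ∧ ∀ γ ∈ S, ∀ δ ∈ S, γ < δ →
          Gd (g ^ k.toNat * f) (e δ - e γ))).card : ℝ) ≤
      ε * (((Ioc (u : ℤ) (u + H)).filter (fun k : ℤ => (g ^ k.toNat * f).Adm)).card : ℝ) := by
  have : Nonempty (Fin T) := ⟨⟨0, hT⟩⟩
  have : Nonempty (Fin K) := ⟨⟨0, hK⟩⟩
  obtain ⟨n, hn, hcopy⟩ := copy ((Fin T × Fin K) × (Fin T × Fin K)) (Finset (Fin T × Fin T)) ε hε
  refine ⟨(n * w ^ w * K + 1) * (T * K + 2)!, fun m d d' hm hd hd' u H hH f g hfd hgd hfA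
    hgA hg1 hfg => ?_⟩
  obtain ⟨Sm, hSm⟩ : ∃ Sm : ℕ, Sm = (u + H) * (∑ γ, Af.sg m (e γ)) +
    m * (T * K + 2)! * (n * (pr m w * K)) := ⟨_, rfl⟩
  refine ⟨(Fintype.piFinset (fun γ : Fin T => Fintype.piFinset (fun _ : Fin K =>
    (range (Sm + 1)).image (fun s => g ^ s * f ^ e γ)))).filter (fun F => (∀ γ i, 1 ≤ (F γ i).d) ∧
      Function.Injective (fun z : Fin T × Fin K => F z.1 z.2) ∧
      (∀ p : ℕ, p.Prime → ∃ y : ℤ, ∀ γ i, ¬ (p : ℤ) ∣ (F γ i).d * y + (F γ i).a)),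
    fun F hF => (mem_filter.1 hF).2, fun Gd hGd => ?_⟩
  by_contra hcon
  rw [not_le] at hcon
  have hfd1 : 1 ≤ f.d := by rw [hfd]; exact_mod_cast hd
  have hgd1 : 1 ≤ g.d := by rw [hgd]; exact_mod_cast hd'
  obtain ⟨q, hq⟩ : ∃ q : ℕ, q = m * (T * K + 2)! := ⟨_, rfl⟩
  have hfac : 1 ≤ (T * K + 2)! := Nat.succ_le_of_lt (Nat.factorial_pos _)
  have hq1 : 1 ≤ q := by rw [hq]; exact Nat.mul_pos hm hfac
  have hmq : m ∣ q := by rw [hq]; exact Dvd.intro _ rfl
  have h2q : 2 ∣ q := by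
    rw [hq]; exact Dvd.dvd.mul_left (Nat.dvd_factorial (by norm_num) (by omega)) _
  obtain ⟨P, hP⟩ : ∃ P : ℕ, P = pr m w := ⟨_, rfl⟩
  have hP1 : 0 < P := by rw [hP]; exact pr_pos hm w
  -- the size conditions
  have hsize1 : q * (n * (P * K * m ^ w)) ≤ H := by
    refine le_trans ?_ hH
    have h1 : P ≤ w ^ w * m ^ (w * w) := by rw [hP]; exact pr_le hm w
    calc q * (n * (P * K * m ^ w)) ≤
          m * (T * K + 2)! * (n * (w ^ w * m ^ (w * w) * K * m ^ w)) := by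
            rw [hq]
            exact Nat.mul_le_mul_left _ (Nat.mul_le_mul_left _ (Nat.mul_le_mul_right _
              (Nat.mul_le_mul_right _ h1)))
      _ = (n * w ^ w * K) * (T * K + 2)! * m ^ (w * w + w + 1) := by
            rw [pow_add, pow_add, pow_one]; ring
      _ ≤ (n * w ^ w * K + 1) * (T * K + 2)! * m ^ ((w + 1) ^ 2) := by
            refine Nat.mul_le_mul (Nat.mul_le_mul_right _ (Nat.le_succ _))
              (Nat.pow_le_pow_right hm ?_)
            nlinarith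
  have hsize2 : q ≤ H := by
    refine le_trans ?_ hH
    calc q = 1 * (T * K + 2)! * m ^ 1 := by rw [hq]; ring
      _ ≤ (n * w ^ w * K + 1) * (T * K + 2)! * m ^ ((w + 1) ^ 2) := by
            refine Nat.mul_le_mul (Nat.mul_le_mul_right _ (by omega))
              (Nat.pow_le_pow_right hm ?_)
            exact Nat.one_le_pow _ _ (Nat.succ_pos _)
  -- the shape
  obtain ⟨v, hv⟩ : ∃ v : (Fin T × Fin K) × (Fin T × Fin K) → ℤ, v = fun z =>
    if z.1.1 < z.2.1 then (P : ℤ) / gs m (e z.2.1 - e z.1.1) *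
      (((z.2.2 : ℕ) : ℤ) - (m : ℤ) ^ (e z.2.1 - e z.1.1) * ((z.1.2 : ℕ) : ℤ)) else 0 := ⟨_, rfl⟩
  have hej : ∀ γ δ : Fin T, γ < δ → 1 ≤ e δ - e γ ∧ e δ - e γ ≤ w := by
    intro γ δ hγδ
    have h1 := he hγδ
    have h2 := hew δ
    constructor <;> omega
  have hvb : ∀ z, |v z| ≤ ((P * K * m ^ w : ℕ) : ℤ) := by
    intro z
    rw [hv]
    simp only
    split_ifs with hz
    · obtain ⟨hj1, hj2⟩ := hej _ _ hz
      obtain ⟨j, hj⟩ : ∃ j, j = e z.2.1 - e z.1.1 := ⟨_, rfl⟩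
      rw [← hj] at hj1 hj2 ⊢
      have hg := gs_pos hm hj1
      rw [abs_mul]
      have h1 : |(P : ℤ) / gs m j| ≤ P := by
        rw [abs_of_nonneg (Int.ediv_nonneg (Nat.cast_nonneg _) hg.le)]
        exact Int.ediv_le_self _ (Nat.cast_nonneg _)
      have hk1 : ((z.2.2 : ℕ) : ℤ) ≤ K := by exact_mod_cast z.2.2.2.le
      have hk0 : (0 : ℤ) ≤ ((z.2.2 : ℕ) : ℤ) := Nat.cast_nonneg _
      have hi1 : ((z.1.2 : ℕ) : ℤ) ≤ K := by exact_mod_cast z.1.2.2.le
      have hi0 : (0 : ℤ) ≤ ((z.1.2 : ℕ) : ℤ) := Nat.cast_nonneg _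
      have hd1 : (1 : ℤ) ≤ (m : ℤ) ^ j := by exact_mod_cast Nat.one_le_pow j _ hm
      have hd2 : (m : ℤ) ^ j ≤ (m : ℤ) ^ w := by exact_mod_cast Nat.pow_le_pow_right hm hj2
      have hK0 : (0 : ℤ) ≤ K := Nat.cast_nonneg _
      have h2 : |((z.2.2 : ℕ) : ℤ) - (m : ℤ) ^ j * ((z.1.2 : ℕ) : ℤ)| ≤ K * (m : ℤ) ^ w := by
        rw [abs_le]
        constructor
        · nlinarith [mul_le_mul hd2 hi1 hi0 (by positivity)]
        · nlinarith [mul_nonneg (by linarith : (0 : ℤ) ≤ (m : ℤ) ^ j) hi0,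
            mul_le_mul_of_nonneg_left (hd1.trans hd2) hK0]
      calc |(P : ℤ) / gs m j| * |((z.2.2 : ℕ) : ℤ) - (m : ℤ) ^ j * ((z.1.2 : ℕ) : ℤ)|
          ≤ P * (K * (m : ℤ) ^ w) := mul_le_mul h1 h2 (abs_nonneg _) (Nat.cast_nonneg _)
        _ = _ := by push_cast; ring
    · rw [abs_zero]; exact Nat.cast_nonneg _
  obtain ⟨Bad, hBad⟩ : ∃ Bad : Finset ℤ, Bad = (Ioc (u : ℤ) (u + H)).filter (fun k : ℤ =>
    (g ^ k.toNat * f).Adm ∧ g ^ k.toNat * f ≠ 1 ∧
        AdE e (g ^ k.toNat * f).a (g ^ k.toNat * f).d ∧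
        ¬ ∃ S : Finset (Fin T), M + 1 ≤ S.card ∧ ∀ γ ∈ S, ∀ δ ∈ S, γ < δ →
          Gd (g ^ k.toNat * f) (e δ - e γ)) := ⟨_, rfl⟩
  rw [← hBad] at hcon
  obtain ⟨x, l, G, hl1, hln, hx⟩ := hcopy (fun k => (g ^ k.toNat * f).Adm) q u
    (fun k l hk hl hkl h => Af.per hfd1 hgd1 hfA hgA hg1 hfg hmq h2q k l
      (lt_of_le_of_lt (Nat.cast_nonneg _) hk) (lt_of_le_of_lt (Nat.cast_nonneg _) hl) hkl h) hq1 v
    (P * K * m ^ w) hvb H ((Nat.le_div_iff_mul_le (by omega)).2 (by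
      calc n * (P * K * m ^ w) * q = q * (n * (P * K * m ^ w)) := by ring
        _ ≤ H := hsize1)) hsize2 Bad (by rw [hBad]; exact filter_subset _ _) (by
      intro a ha
      rw [hBad] at ha
      exact (mem_filter.1 ha).2.1)
    (fun k => univ.filter (fun z : Fin T × Fin T => z.1 < z.2 ∧
      Gd (g ^ k.toNat * f) (e z.2 - e z.1))) hcon
  -- the base point
  have hx0 := hx ((Classical.arbitrary _, Classical.arbitrary _),
    (Classical.arbitrary _, Classical.arbitrary _))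
  have hv0 : v ((Classical.arbitrary (Fin T), Classical.arbitrary (Fin K)),
      (Classical.arbitrary (Fin T), Classical.arbitrary (Fin K))) = 0 := by
    rw [hv]; simp
  rw [hv0, mul_zero, mul_zero, add_zero] at hx0
  obtain ⟨hxB, hxG⟩ := hx0
  obtain ⟨hxI, hxA, hx0, hxE, hxN⟩ := mem_filter.1 (by rw [hBad] at hxB; exact hxB)
  have hxI' := mem_Ioc.1 hxI
  have hxn : ((x.toNat : ℕ) : ℤ) = x := Int.toNat_of_nonneg (by omega)
  -- the exponents
  obtain ⟨s, hs⟩ : ∃ s : Fin T → Fin K → ℕ, s = fun (γ : Fin T) (i : Fin K) =>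
    x.toNat * Af.sg m (e γ) + q * (l * (P * (i : ℕ))) := ⟨_, rfl⟩
  obtain ⟨F, hF⟩ : ∃ F : Fin T → Fin K → Af, F = fun γ i => g ^ s γ i * f ^ e γ := ⟨_, rfl⟩
  have hcross : ∀ (γ δ : Fin T) (i k : Fin K), γ < δ →
      F δ k = (g ^ (x + l * (q * v ((γ, i), (δ, k)))).toNat * f) ^ (e δ - e γ) * F γ i := by
    intro γ δ i k hγδ
    obtain ⟨hj1, hj2⟩ := hej γ δ hγδ
    obtain ⟨y, hy⟩ : ∃ y, y = x + l * (q * v ((γ, i), (δ, k))) := ⟨_, rfl⟩
    have hyB := (hx ((γ, i), (δ, k))).1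
    rw [← hy] at hyB ⊢
    rw [hBad] at hyB
    have hyI := mem_Ioc.1 (mem_filter.1 hyB).1
    have hyn : ((y.toNat : ℕ) : ℤ) = y := Int.toNat_of_nonneg (by omega)
    rw [hF]
    simp only
    rw [Af.cross hfg]
    obtain ⟨j, hj⟩ : ∃ j, j = e δ - e γ := ⟨_, rfl⟩
    have hjδ : e δ = j + e γ := by have := he hγδ; omega
    rw [← hj] at hj1 hj2 ⊢
    have h2 : (P : ℤ) = gs m j * ((P : ℤ) / gs m j) := by
      rw [hP]; exact (Int.mul_ediv_cancel' (pr_dvd m w hj1 hj2)).symm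
    have h3 : y = x + l * (q * ((P : ℤ) / gs m j * (((k : ℕ) : ℤ) - (m : ℤ) ^ j *
        ((i : ℕ) : ℤ)))) := by
      rw [hy, hv]
      simp only [if_pos hγδ]
      rw [hj]
    have h5 : ((s δ k : ℕ) : ℤ) = ((y.toNat * Af.sg m j + m ^ j * s γ i : ℕ) : ℤ) := by
      rw [hs]
      simp only
      rw [hjδ, sg_add']
      push_cast
      rw [hxn, hyn, h3, sg_gs', sg_gs']
      generalize (P : ℤ) / gs m j = R at h2 ⊢
      rw [h2]
      ring
    have h6 : s δ k = y.toNat * Af.sg m j + m ^ j * s γ i := by exact_mod_cast h5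
    rw [h6, hjδ]
  have hFd : ∀ γ i, (F γ i).d = (d' : ℤ) ^ s γ i * (d : ℤ) ^ e γ := by
    intro γ i
    rw [hF]
    show (g ^ s γ i * f ^ e γ).d = _
    rw [Af.mul_d, Af.pow_d, Af.pow_d, hgd, hfd]
  have hFd1 : ∀ γ i, (1 : ℤ) ≤ (F γ i).d := by
    intro γ i
    rw [hFd]
    exact_mod_cast Nat.mul_pos (Nat.one_le_pow _ _ hd') (Nat.one_le_pow _ _ hd)
  have hyd : ∀ k : ℕ, 1 ≤ (g ^ k * f).d := by
    intro k
    rw [Af.mul_d, Af.pow_d, hgd, hfd]
    exact_mod_cast Nat.mul_pos (Nat.one_le_pow _ _ hd') hd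
  obtain ⟨S, σ, hS, hcl⟩ := hGd F (by
   refine mem_filter.2 ⟨Fintype.mem_piFinset.2 fun γ =>
      Fintype.mem_piFinset.2 fun i => ?_, hFd1, ?_, ?_⟩
   · -- the exponents are bounded
     rw [hF]
     refine mem_image_of_mem (fun s => g ^ s * f ^ e γ) (mem_range.2 ?_)
     rw [hs, hSm]
     simp only
     have b1 : Af.sg m (e γ) ≤ ∑ γ, Af.sg m (e γ) :=
       single_le_sum (f := fun γ => Af.sg m (e γ)) (fun _ _ => Nat.zero_le _) (mem_univ γ)
     have b2 : x.toNat ≤ u + H := by omega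
     have b3 : (i : ℕ) ≤ K := i.2.le
     have b4 : q * (l * (P * (i : ℕ))) ≤ m * (T * K + 2)! * (n * (pr m w * K)) := by
       rw [hq, hP]
       exact Nat.mul_le_mul_left _ (Nat.mul_le_mul hln (Nat.mul_le_mul_left _ b3))
     have b5 : x.toNat * Af.sg m (e γ) ≤ (u + H) * ∑ γ, Af.sg m (e γ) := Nat.mul_le_mul b2 b1
     omega
   · (
       -- injectivity
       have hlt : ∀ (γ δ : Fin T) (i k : Fin K), γ < δ → F γ i ≠ F δ k := by
         intro γ δ i k hγδ heq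
         have h3 := hcross γ δ i k hγδ
         obtain ⟨hj1, hj2⟩ := hej γ δ hγδ
         have hyB := (hx ((γ, i), (δ, k))).1
         rw [hBad] at hyB
         have hne := (mem_filter.1 hyB).2.2.1
         have hyd := hyd (x + l * (q * v ((γ, i), (δ, k)))).toNat
         rw [← heq] at h3
         generalize g ^ (x + l * (q * v ((γ, i), (δ, k)))).toNat * f = y at h3 hne hyd
         obtain ⟨j, hj⟩ : ∃ j, j = e δ - e γ := ⟨_, rfl⟩
         rw [← hj] at hj1 hj2 h3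
         have hD := congrArg Af.d h3
         have hA := congrArg Af.a h3
         rw [Af.mul_d, Af.pow_d] at hD
         rw [Af.mul_a, Af.pow_a, Af.pow_d] at hA
         have hF1 := hFd1 γ i
         have h4 : y.d ^ j = 1 := by
           have h5 : (y.d ^ j - 1) * (F γ i).d = 0 := by linear_combination -hD
           rcases mul_eq_zero.1 h5 with h8 | h8
           · linarith
           · omega
         rw [h4, one_mul] at hA
         have h9 : itc y.a y.d j = 0 := by linarith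
         have h10 : y.d = 1 := by
           have h11 : IsUnit y.d := IsUnit.of_pow_eq_one h4 (by omega)
           rcases Int.isUnit_iff.1 h11 with h12 | h12
           · exact h12
           · omega
         rw [h10, Af.itc_one] at h9
         rcases mul_eq_zero.1 h9 with h11 | h11
         · have : j = 0 := by exact_mod_cast h11
           omega
         · exact hne (Af.ext h11 h10)
       rintro ⟨γ, i⟩ ⟨δ, k⟩ heq
       have heq' : F γ i = F δ k := heq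
       rcases lt_trichotomy γ δ with hγδ | hγδ | hγδ
       · exact absurd heq' (hlt γ δ i k hγδ)
       · subst hγδ
         have h1 := congrArg Af.d heq'
         have h2 := congrArg Af.a heq'
         rw [hFd, hFd] at h1
         have h3 : (d' : ℤ) ^ s γ i = (d' : ℤ) ^ s γ k := mul_right_cancel₀ (by positivity) h1
         rw [hF] at h2
         simp only [Af.mul_a, Af.pow_a, Af.pow_d, hgd] at h2
         rw [h3] at h2
         have h4 : itc g.a d' (s γ i) = itc g.a d' (s γ k) := add_right_cancel h2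
         have h5 : s γ i = s γ k := itc_inj (by exact_mod_cast hd') (Af.a_ne hgA hg1 hgd1) h3 h4
         rw [hs] at h5
         simp only at h5
         have h6 := Nat.add_left_cancel h5
         have h7 := Nat.eq_of_mul_eq_mul_left hP1 (Nat.eq_of_mul_eq_mul_left (by omega)
           (Nat.eq_of_mul_eq_mul_left (by omega) h6))
         rw [Fin.ext h7]
       · exact absurd heq'.symm (hlt δ γ k i hγδ))
   · (
       intro p hp
       obtain ⟨y, hy⟩ := Af.arr (ι := Fin T × Fin K) hfd1 hgd1 hfA hgA hg1 hfg hmq (by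
         intro p hp hpc
         rw [Fintype.card_prod, Fintype.card_fin, Fintype.card_fin] at hpc
         rw [hq]
         exact Dvd.dvd.mul_left (Nat.dvd_factorial hp.pos (by omega)) _) (fun z => e z.1) x.toNat
         (fun z => l * (P * ((z.2 : Fin K) : ℕ))) (by
         intro p hp
         obtain ⟨y, hy⟩ := hxE p hp
         refine ⟨y, fun z hz => hy z.1 ?_⟩
         unfold Af.ev at hz
         rw [Af.pow_a, Af.pow_d, add_comm] at hz
         exact hz) hp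
       refine ⟨y, fun γ i hi => hy (γ, i) ?_⟩
       rw [hF, hs] at hi
       unfold Af.ev
       rw [add_comm]
       exact hi))
  -- the clique
  apply hxN
  refine ⟨S, hS, fun γ hγ δ hδ hγδ => ?_⟩
  have hz := (hx ((γ, σ γ), (δ, σ δ))).2
  have hmem : (γ, δ) ∈ G := by
    rw [← hz]
    refine mem_filter.2 ⟨mem_univ _, hγδ, ?_⟩
    obtain ⟨hj1, hj2⟩ := hej γ δ hγδ
    have hyB := (hx ((γ, σ γ), (δ, σ δ))).1
    rw [hBad] at hyB
    obtain ⟨hyI, hyA, hy1, -⟩ := mem_filter.1 hyB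
    have hyI' := mem_Ioc.1 hyI
    exact hcl γ hγ δ hδ _ (by omega) (by omega) hyA hy1 _ hj1 hj2
      (hcross γ δ (σ γ) (σ δ) hγδ).symm
  rw [← hxG] at hmem
  exact (mem_filter.1 hmem).2.2

end Pool.Agent.K1H50.AS
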