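import Mathlib
import Pool.Agent.K1H50.AS.NarX
import Pool.Agent.K1H50.AS.CoreX

/-! Good exponents at a given scale. -/

set_option autoImplicit false

namespace Pool.Agent.K1H50.AS

open Finset Filter Topology
open Pool.Agent.Y827.RO Pool.Agent.Y863.AU Pool.Agent.Y863.AA Pool.Agent.W25.IT Pool.Agent.K1H50.NP

open Classical in
/-- the number of the `q`, `X / C ≤ q ≤ X`, such that `q, q + D, ..., q + (l - 1) D` and their images under
`h ^ j` are primes -/
noncomputable def cntG (l C X D : ℕ) (h : Af) (j : ℕ) : ℕ :=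
  ((Icc 1 X).filter (fun q : ℕ => (X : ℝ) / C ≤ q ∧ ∀ i < l, (q + i * D).Prime ∧
    ((h ^ j).ev ((q + i * D : ℕ) : ℤ)).toNat.Prime)).card

/-- the exponent `j` is good at the scale `X` -/
def GdX (l C X : ℕ) (h : Af) (j : ℕ) : Prop :=
  ∃ D : ℕ, 1 ≤ D ∧ (D : ℝ) ≤ Real.log X ^ C ∧ (X : ℝ) / Real.log X ^ C ≤ (cntG l C X D h j : ℝ)

theorem GdX.mono {l C C' X : ℕ} {h : Af} {j : ℕ} (hC1 : 1 ≤ C) (hC : C ≤ C') (hX : 1 ≤ Real.log X)
    (hg : GdX l C X h j) : GdX l C' X h j := by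
  obtain ⟨D, g1, g2, g3⟩ := hg
  refine ⟨D, g1, g2.trans (pow_le_pow_right₀ hX hC), ?_⟩
  have h1 : (X : ℝ) / Real.log X ^ C' ≤ (X : ℝ) / Real.log X ^ C :=
    div_le_div_of_nonneg_left (Nat.cast_nonneg _) (by positivity) (pow_le_pow_right₀ hX hC)
  refine h1.trans (g3.trans ?_)
  rw [Nat.cast_le]
  unfold cntG
  apply card_le_card
  intro q hq
  rw [mem_filter] at hq ⊢
  refine ⟨hq.1, le_trans ?_ hq.2.1, hq.2.2⟩
  exact div_le_div_of_nonneg_left (Nat.cast_nonneg _) (by exact_mod_cast hC1) (by exact_mod_cast hC)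

theorem cop_of {a b : ℤ} (h : ∀ p : ℕ, p.Prime → ∃ n : ℤ, ¬ (p : ℤ) ∣ a * n + b) :
    IsCoprime a b := by
  rw [Int.isCoprime_iff_gcd_eq_one]
  by_contra hne
  obtain ⟨p, hp, hd⟩ := Nat.exists_prime_and_dvd hne
  obtain ⟨n, hn⟩ := h p hp
  apply hn
  have h1 : (p : ℤ) ∣ a := (Int.natCast_dvd_natCast.2 hd).trans (Int.gcd_dvd_left a b)
  have h2 : (p : ℤ) ∣ b := (Int.natCast_dvd_natCast.2 hd).trans (Int.gcd_dvd_right a b)
  exact dvd_add (h1.mul_right _) h2

open Classical in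
theorem scl (T M : ℕ) (hT : 1 ≤ T) (hTM : (18 / 5 : ℝ) * M < T) : ∃ K : ℕ, 1 ≤ K ∧
    ∀ F : Fin T → Fin K → Af, (∀ γ i, 1 ≤ (F γ i).d) →
    Function.Injective (fun z : Fin T × Fin K => F z.1 z.2) →
    (∀ p : ℕ, p.Prime → ∃ y : ℤ, ∀ γ i, ¬ (p : ℤ) ∣ (F γ i).d * y + (F γ i).a) →
    ∀ l : ℕ, ∃ C : ℕ, 1 ≤ C ∧ ∀ᶠ X : ℕ in atTop,
      ∃ (S : Finset (Fin T)) (σ : Fin T → Fin K), M + 1 ≤ S.card ∧
        ∀ γ ∈ S, ∀ δ ∈ S, ∀ (h : Af) (j : ℕ), h ^ j * F γ (σ γ) = F δ (σ δ) → GdX l C X h j := by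
  obtain ⟨K, hK, hnar⟩ := narX T M hT hTM
  refine ⟨K, hK, fun F hFd hinj hloc l => ?_⟩
  have : Nonempty (Fin K) := ⟨⟨0, hK⟩⟩
  obtain ⟨C₀, hC₀⟩ := hnar (fun γ i => ((F γ i).d, (F γ i).a))
    (by
      intro x y hxy
      apply hinj
      simp only [Prod.mk.injEq] at hxy
      exact Af.ext hxy.2 hxy.1)
    (fun γ i => ⟨by have := hFd γ i; show 0 < (F γ i).d; omega,
      cop_of fun p hp => by
        obtain ⟨y, hy⟩ := hloc p hp
        exact ⟨y, hy γ i⟩⟩)
    (fun p hp _ => hloc p hp) (max l 1)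
  obtain ⟨A, hA⟩ : ∃ A : ℕ, A = 2 * ∑ z : Fin T × Fin K, (F z.1 z.2).d.natAbs + 2 := ⟨_, rfl⟩
  obtain ⟨B, hB⟩ : ∃ B : ℕ, B = ∑ z : Fin T × Fin K, (F z.1 z.2).a.natAbs := ⟨_, rfl⟩
  have hA1 : 1 ≤ A := by omega
  have hAr : (1 : ℝ) ≤ A := by exact_mod_cast hA1
  have htend : Tendsto (fun X : ℕ => X / A) atTop atTop :=
    Nat.tendsto_div_const_atTop (by omega)
  have hlog : ∀ᶠ X : ℕ in atTop, 2 * (A : ℝ) + 1 ≤ Real.log X :=
    (Real.tendsto_log_atTop.comp tendsto_natCast_atTop_atTop).eventually_ge_atTop _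
  refine ⟨100 * A + C₀ + 1, by omega, ?_⟩
  filter_upwards [htend.eventually hC₀, hlog, eventually_ge_atTop (100 * A * (B + 2)),
    htend.eventually (eventually_ge_atTop 3)] with X hX hXl hXb hN3
  obtain ⟨N, hN⟩ : ∃ N : ℕ, N = X / A := ⟨_, rfl⟩
  rw [← hN] at hX hN3
  obtain ⟨E, hE, d, hd1, hd2, hd3⟩ := hX
  have hex : ∀ g ∈ E.image Prod.fst, ∃ i, (g, i) ∈ E := by
    intro g hg
    obtain ⟨⟨g', i⟩, h1, h2⟩ := mem_image.1 hg
    exact ⟨i, by rw [← h2]; exact h1⟩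
  choose! cc hcc using hex
  refine ⟨E.image Prod.fst, cc, hE, fun γ hγ δ hδ h j hj => ?_⟩
  -- sizes
  have hNA : N * A ≤ X := by rw [hN]; exact Nat.div_mul_le_self X A
  have hNA2 : X < N * A + A := by rw [hN]; exact Nat.lt_div_mul_add (by omega)
  have hXr : (X : ℝ) ≤ 2 * (A * N) := by
    have h1 : X ≤ 2 * (A * N) := by nlinarith
    exact_mod_cast h1
  have hX1 : (1 : ℝ) ≤ X := by
    have : 1 ≤ X := by nlinarith
    exact_mod_cast this
  have hNX : N ≤ X := by nlinarith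
  have hNr : (0 : ℝ) < N := by exact_mod_cast (by omega : 0 < N)
  have hlN0 : 0 < Real.log N := Real.log_pos (by exact_mod_cast (by omega : 1 < N))
  have hlNX : Real.log N ≤ Real.log X := Real.log_le_log hNr (by exact_mod_cast hNX)
  have hl1 : 1 ≤ Real.log X := by linarith
  have hl0 : 0 < Real.log X := by linarith
  obtain ⟨a, ha⟩ : ∃ a : ℕ, (a : ℤ) = (F γ (cc γ)).d :=
    ⟨_, Int.toNat_of_nonneg (by have := hFd γ (cc γ); omega)⟩
  obtain ⟨b, hb⟩ : ∃ b : ℤ, b = (F γ (cc γ)).a := ⟨_, rfl⟩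
  have ha1 : 1 ≤ a := by have := hFd γ (cc γ); omega
  have haA : 2 * a ≤ A := by
    have h1 : (F γ (cc γ)).d.natAbs ≤ ∑ z : Fin T × Fin K, (F z.1 z.2).d.natAbs :=
      single_le_sum (f := fun z : Fin T × Fin K => (F z.1 z.2).d.natAbs)
        (fun _ _ => Nat.zero_le _) (mem_univ (γ, cc γ))
    omega
  have hbB : b.natAbs ≤ B := by
    have h1 : (F γ (cc γ)).a.natAbs ≤ ∑ z : Fin T × Fin K, (F z.1 z.2).a.natAbs :=
      single_le_sum (f := fun z : Fin T × Fin K => (F z.1 z.2).a.natAbs)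
        (fun _ _ => Nat.zero_le _) (mem_univ (γ, cc γ))
    rw [hb, hB]
    exact h1
  have hpow : Real.log N ^ C₀ ≤ Real.log X ^ C₀ := pow_le_pow_left₀ hlN0.le hlNX _
  refine ⟨a * d, Nat.mul_pos ha1 hd1, ?_, ?_⟩
  · have h1 : (a : ℝ) ≤ Real.log X := by
      have : (a : ℝ) ≤ A := by exact_mod_cast (by omega : a ≤ A)
      linarith
    push_cast
    calc (a : ℝ) * d ≤ Real.log X * Real.log X ^ C₀ :=
          mul_le_mul h1 (hd2.trans hpow) (Nat.cast_nonneg _) hl0.le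
      _ = Real.log X ^ (C₀ + 1) := by ring
      _ ≤ Real.log X ^ (100 * A + C₀ + 1) := pow_le_pow_right₀ hl1 (by omega)
  · have h1 : (X : ℝ) / Real.log X ^ (100 * A + C₀ + 1) ≤ (N : ℝ) / Real.log N ^ C₀ := by
      calc (X : ℝ) / Real.log X ^ (100 * A + C₀ + 1) ≤ X / Real.log X ^ (C₀ + 1) :=
            div_le_div_of_nonneg_left (by linarith) (by positivity)
              (pow_le_pow_right₀ hl1 (by omega))
        _ ≤ N / Real.log X ^ C₀ := by
            rw [div_le_div_iff₀ (by positivity) (by positivity), pow_succ]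
            have h2 : (X : ℝ) ≤ N * Real.log X := by nlinarith
            calc (X : ℝ) * Real.log X ^ C₀ ≤ (N * Real.log X) * Real.log X ^ C₀ :=
                  mul_le_mul_of_nonneg_right h2 (by positivity)
              _ = _ := by ring
        _ ≤ N / Real.log N ^ C₀ := div_le_div_of_nonneg_left hNr.le (by positivity) hpow
    refine h1.trans (hd3.trans ?_)
    rw [Nat.cast_le]
    unfold cntX cntG
    -- the embedding
    have hval : ∀ n : ℕ, (N : ℝ) / 16 ≤ n → n ≤ N → ∃ q : ℕ, (q : ℤ) = a * n + b ∧ 1 ≤ q ∧ q ≤ X ∧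
        (X : ℝ) / ((100 * A + C₀ + 1 : ℕ) : ℝ) ≤ q := by
      intro n hn1 hn2
      have hn1' : N ≤ 16 * n := by
        have : (N : ℝ) ≤ ((16 * n : ℕ) : ℝ) := by push_cast; linarith
        exact_mod_cast this
      have hb1 : (b.natAbs : ℤ) ≤ B := by exact_mod_cast hbB
      have hb2 : -(b.natAbs : ℤ) ≤ b ∧ b ≤ b.natAbs := by omega
      have han : (n : ℤ) ≤ a * n := by nlinarith
      have haN : 2 * ((a : ℤ) * n) ≤ A * N := by
        have h3 : 2 * a * n ≤ A * N := Nat.mul_le_mul haA hn2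
        have h4 : 2 * (a * n) ≤ A * N := by rw [← mul_assoc]; exact h3
        exact_mod_cast h4
      have hNAz : (A : ℤ) * N ≤ X := by
        have : A * N ≤ X := by rw [mul_comm]; exact hNA
        exact_mod_cast this
      have hNb : 50 * (B + 1) ≤ N := by
        by_contra hlt
        push Not at hlt
        have : N * A + A ≤ (50 * (B + 1)) * A := by nlinarith
        nlinarith
      have hNbz : 50 * ((B : ℤ) + 1) ≤ N := by exact_mod_cast hNb
      have hn1z : (N : ℤ) ≤ 16 * n := by exact_mod_cast hn1'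
      have hXN : (N : ℤ) ≤ X := by exact_mod_cast hNX
      have hq0 : 0 ≤ (a : ℤ) * n + b := by linarith
      refine ⟨((a : ℤ) * n + b).toNat, Int.toNat_of_nonneg hq0, ?_, ?_, ?_⟩
      · have : (1 : ℤ) ≤ (a : ℤ) * n + b := by linarith
        omega
      · have : (a : ℤ) * n + b ≤ X := by linarith
        omega
      · have h5 : (X : ℤ) ≤ 100 * A * (a * n + b) := by
          have h6 : (N : ℤ) + N ≤ 100 * (a * n + b) := by linarith
          have h7 : (X : ℤ) ≤ 2 * (A * N) := by exact_mod_cast hXr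
          have h8 : (0 : ℤ) ≤ A := Nat.cast_nonneg _
          nlinarith
        have h6 : ((((a : ℤ) * n + b).toNat : ℕ) : ℤ) = a * n + b := Int.toNat_of_nonneg hq0
        have h7 : X ≤ 100 * A * ((a : ℤ) * n + b).toNat := by
          have : (X : ℤ) ≤ ((100 * A * ((a : ℤ) * n + b).toNat : ℕ) : ℤ) := by
            push_cast
            rw [h6]
            exact h5
          exact_mod_cast this
        rw [div_le_iff₀ (by positivity)]
        have h8 : X ≤ ((a : ℤ) * n + b).toNat * (100 * A + C₀ + 1) := by nlinarith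
        exact_mod_cast h8
    choose! qf hq1 hq2 hq3 hq4 using hval
    apply card_le_card_of_injOn qf
    · intro n hn
      rw [mem_coe, mem_filter, mem_Icc] at hn
      obtain ⟨⟨hn0, hnN⟩, hn16, hnE⟩ := hn
      rw [mem_coe, mem_filter, mem_Icc]
      refine ⟨⟨hq2 n hn16 hnN, hq3 n hn16 hnN⟩, hq4 n hn16 hnN, fun i hi => ?_⟩
      have hi' : i < max l 1 := lt_of_lt_of_le hi (le_max_left _ _)
      have hv : ((qf n + i * (a * d) : ℕ) : ℤ) = (F γ (cc γ)).ev ((n + i * d : ℕ) : ℤ) := by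
        unfold Af.ev
        push_cast
        rw [hq1 n hn16 hnN, ← ha, ← hb]
        ring
      have hev : ∀ g : Af, g.ev ((n + i * d : ℕ) : ℤ) = g.d * ((n + i * d : ℕ) : ℤ) + g.a := by
        intro g; unfold Af.ev; ring
      constructor
      · have h2 := (hnE i hi' γ (cc γ)).2 (hcc γ hγ)
        have h3 : (((qf n + i * (a * d) : ℕ) : ℤ)).toNat = qf n + i * (a * d) := Int.toNat_natCast _
        rw [← h3, hv, hev]
        exact h2
      · rw [hv, ← Af.ev_mul, hj, hev]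
        exact (hnE i hi' δ (cc δ)).2 (hcc δ hδ)
    · intro n hn n' hn' heq
      rw [mem_coe, mem_filter, mem_Icc] at hn hn'
      have h2 := hq1 n hn.2.1 hn.1.2
      have h3 := hq1 n' hn'.2.1 hn'.1.2
      beta_reduce at heq
      rw [heq, h3] at h2
      have h4 : (a : ℤ) * n' = a * n := by linarith
      have h5 : (n' : ℤ) = n := mul_left_cancel₀ (by exact_mod_cast (by omega : a ≠ 0)) h4
      exact_mod_cast h5.symm

end Pool.Agent.K1H50.AS
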