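import Mathlib
import Pool.Agent.K1H50.AS.ScX
import Pool.Agent.K1H50.NP.Comb4

/-! At least `n` of the first `3 n` iterates of almost all maps of the sequence `g ^ k * f`, at every scale. -/

set_option autoImplicit false

namespace Pool.Agent.K1H50.AS

open Finset Filter Topology
open Pool.Agent.Y827.RO Pool.Agent.Y863.AU Pool.Agent.Y863.AA Pool.Agent.W25.IT Pool.Agent.K1H50.NP

theorem cnat_le (u H : ℕ) (P : ℕ → Prop) (Q : ℤ → Prop) (i1 : DecidablePred P)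
    (i2 : DecidablePred Q) (h : ∀ k : ℕ, P k → Q k) :
    (@Finset.filter ℕ P i1 (Ioc u (u + H))).card ≤
      (@Finset.filter ℤ Q i2 (Ioc (u : ℤ) (u + H))).card := by
  refine card_le_card_of_injOn (fun k : ℕ => (k : ℤ)) ?_ Nat.cast_injective.injOn
  intro k hk
  obtain ⟨h1, h2⟩ := mem_filter.1 (mem_coe.1 hk)
  rw [mem_Ioc] at h1
  refine mem_coe.2 (mem_filter.2 ⟨?_, h k h2⟩)
  rw [mem_Ioc]
  constructor <;> push_cast <;> omega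

theorem cint_le (u H : ℕ) (P : ℕ → Prop) (Q : ℤ → Prop) (i1 : DecidablePred P)
    (i2 : DecidablePred Q) (h : ∀ k : ℤ, Q k → P k.toNat) :
    (@Finset.filter ℤ Q i2 (Ioc (u : ℤ) (u + H))).card ≤
      (@Finset.filter ℕ P i1 (Ioc u (u + H))).card := by
  refine card_le_card_of_injOn Int.toNat ?_ ?_
  · intro k hk
    obtain ⟨h1, h2⟩ := mem_filter.1 (mem_coe.1 hk)
    rw [mem_Ioc] at h1
    refine mem_coe.2 (mem_filter.2 ⟨?_, h k h2⟩)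
    rw [mem_Ioc]
    constructor <;> omega
  · intro k hk l hl hkl
    have h1 := (mem_filter.1 (mem_coe.1 hk)).1
    have h2 := (mem_filter.1 (mem_coe.1 hl)).1
    rw [mem_Ioc] at h1 h2
    omega

open Classical in
/-- **At least `n` of the first `3 n` iterates, at every scale.** -/
theorem mainX (n : ℕ) (ε : ℝ) (hε : 0 < ε) : ∃ L : ℕ, ∀ m d d' : ℕ, 1 ≤ m → 1 ≤ d →
    1 ≤ d' → ∀ u H : ℕ, L * m ^ ((9 * n / 2 + 1) ^ 2) ≤ H →
    ∀ f g : Af, f.d = d → g.d = d' → f.Adm → g.Adm → g ≠ 1 → f * g = g ^ m * f →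
    ∀ l : ℕ, ∃ C : ℕ, 1 ≤ C ∧ ∀ᶠ X : ℕ in atTop,
      (((Ioc u (u + H)).filter (fun k : ℕ => (g ^ k * f).Adm ∧ g ^ k * f ≠ 1 ∧
        ((Icc 1 (Rw n (g ^ k * f))).filter (fun j => GdX l C X (g ^ k * f) j)).card < n)).card : ℝ) ≤
      ε * (((Ioc u (u + H)).filter (fun k : ℕ => (g ^ k * f).Adm)).card : ℝ) := by
  obtain ⟨K, hK, hscl⟩ := scl 4 1 (by norm_num) (by norm_num)
  set w : ℕ := 9 * n / 2 with hw
  set EE : Finset (Fin 4 → ℕ) := (Fintype.piFinset (fun _ : Fin 4 => range (w + 1))).filter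
    (fun e => StrictMono e) with hEE
  have hEEm : ∀ e ∈ EE, StrictMono e ∧ ∀ γ, e γ ≤ w := by
    intro e he
    rw [hEE, mem_filter, Fintype.mem_piFinset] at he
    exact ⟨he.2, fun γ => by have := mem_range.1 (he.1 γ); omega⟩
  have hcore : ∀ e : Fin 4 → ℕ, ∃ L : ℕ, e ∈ EE →
      ∀ m d d' : ℕ, 1 ≤ m → 1 ≤ d → 1 ≤ d' → ∀ u H : ℕ, L * m ^ ((w + 1) ^ 2) ≤ H →
      ∀ f g : Af, f.d = d → g.d = d' → f.Adm → g.Adm → g ≠ 1 → f * g = g ^ m * f →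
      ∃ FF : Finset (Fin 4 → Fin K → Af), (∀ F ∈ FF, (∀ γ i, 1 ≤ (F γ i).d) ∧
        Function.Injective (fun z : Fin 4 × Fin K => F z.1 z.2) ∧
        (∀ p : ℕ, p.Prime → ∃ y : ℤ, ∀ γ i, ¬ (p : ℤ) ∣ (F γ i).d * y + (F γ i).a)) ∧
      ∀ Gd : Af → ℕ → Prop,
      (∀ F ∈ FF, ∃ (S : Finset (Fin 4)) (σ : Fin 4 → Fin K), 1 + 1 ≤ S.card ∧
          ∀ γ ∈ S, ∀ δ ∈ S, ∀ k : ℕ, u < k → k ≤ u + H → (g ^ k * f).Adm → g ^ k * f ≠ 1 →
            ∀ j : ℕ, 1 ≤ j → j ≤ w →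
            (g ^ k * f) ^ j * F γ (σ γ) = F δ (σ δ) → Gd (g ^ k * f) j) →
      (((Ioc (u : ℤ) (u + H)).filter (fun k : ℤ => (g ^ k.toNat * f).Adm ∧ g ^ k.toNat * f ≠ 1 ∧
        AdE e (g ^ k.toNat * f).a (g ^ k.toNat * f).d ∧
        ¬ ∃ S : Finset (Fin 4), 1 + 1 ≤ S.card ∧ ∀ γ ∈ S, ∀ δ ∈ S, γ < δ →
          Gd (g ^ k.toNat * f) (e δ - e γ))).card : ℝ) ≤
      ε / (EE.card + 1) *
        (((Ioc (u : ℤ) (u + H)).filter (fun k : ℤ => (g ^ k.toNat * f).Adm)).card : ℝ) := by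
    intro e
    by_cases he : e ∈ EE
    · obtain ⟨L, hL⟩ := coreX 4 K 1 (by norm_num) hK w e (hEEm e he).1 (hEEm e he).2
        (ε / (EE.card + 1)) (by positivity)
      exact ⟨L, fun _ => hL⟩
    · exact ⟨0, fun h => absurd h he⟩
  choose Lf hLf using hcore
  refine ⟨∑ e ∈ EE, Lf e, fun m d d' hm hd hd' u H hH f g hfd hgd hfA hgA hg1 hfg l => ?_⟩
  -- the systems
  have hFFe : ∀ e : Fin 4 → ℕ, ∃ FF : Finset (Fin 4 → Fin K → Af), e ∈ EE →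
      (∀ F ∈ FF, (∀ γ i, 1 ≤ (F γ i).d) ∧
        Function.Injective (fun z : Fin 4 × Fin K => F z.1 z.2) ∧
        (∀ p : ℕ, p.Prime → ∃ y : ℤ, ∀ γ i, ¬ (p : ℤ) ∣ (F γ i).d * y + (F γ i).a)) ∧
      ∀ Gd : Af → ℕ → Prop,
      (∀ F ∈ FF, ∃ (S : Finset (Fin 4)) (σ : Fin 4 → Fin K), 1 + 1 ≤ S.card ∧
          ∀ γ ∈ S, ∀ δ ∈ S, ∀ k : ℕ, u < k → k ≤ u + H → (g ^ k * f).Adm → g ^ k * f ≠ 1 →
            ∀ j : ℕ, 1 ≤ j → j ≤ w →
            (g ^ k * f) ^ j * F γ (σ γ) = F δ (σ δ) → Gd (g ^ k * f) j) →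
      (((Ioc (u : ℤ) (u + H)).filter (fun k : ℤ => (g ^ k.toNat * f).Adm ∧ g ^ k.toNat * f ≠ 1 ∧
        AdE e (g ^ k.toNat * f).a (g ^ k.toNat * f).d ∧
        ¬ ∃ S : Finset (Fin 4), 1 + 1 ≤ S.card ∧ ∀ γ ∈ S, ∀ δ ∈ S, γ < δ →
          Gd (g ^ k.toNat * f) (e δ - e γ))).card : ℝ) ≤
      ε / (EE.card + 1) *
        (((Ioc (u : ℤ) (u + H)).filter (fun k : ℤ => (g ^ k.toNat * f).Adm)).card : ℝ) := by
    intro e
    by_cases he : e ∈ EE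
    · obtain ⟨FF, h1, h2⟩ := hLf e he m d d' hm hd hd' u H (by
        refine le_trans (Nat.mul_le_mul_right _ ?_) hH
        exact single_le_sum (f := Lf) (fun _ _ => Nat.zero_le _) he) f g hfd hgd hfA hgA hg1 hfg
      exact ⟨FF, fun _ => ⟨h1, h2⟩⟩
    · exact ⟨∅, fun h => absurd h he⟩
  choose FF hFF using hFFe
  have hCF : ∀ F : Fin 4 → Fin K → Af, ∃ C : ℕ, 1 ≤ C ∧ ((∃ e ∈ EE, F ∈ FF e) →
      ∀ᶠ X : ℕ in atTop, ∃ (S : Finset (Fin 4)) (σ : Fin 4 → Fin K), 1 + 1 ≤ S.card ∧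
        ∀ γ ∈ S, ∀ δ ∈ S, ∀ (h : Af) (j : ℕ), h ^ j * F γ (σ γ) = F δ (σ δ) →
          GdX l C X h j) := by
    intro F
    by_cases hF : ∃ e ∈ EE, F ∈ FF e
    · obtain ⟨e, he, hFe⟩ := hF
      obtain ⟨g1, g2, g3⟩ := (hFF e he).1 F hFe
      obtain ⟨C, hC1, hC⟩ := hscl F g1 g2 g3 l
      exact ⟨C, hC1, fun _ => hC⟩
    · exact ⟨1, le_rfl, fun h => absurd h hF⟩
  choose CF hCF1 hCF using hCF
  refine ⟨∑ F ∈ EE.biUnion FF, CF F + 1, by omega, ?_⟩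
  have hall : ∀ᶠ X : ℕ in atTop, ∀ F ∈ EE.biUnion FF, ∃ (S : Finset (Fin 4)) (σ : Fin 4 → Fin K),
      1 + 1 ≤ S.card ∧ ∀ γ ∈ S, ∀ δ ∈ S, ∀ (h : Af) (j : ℕ), h ^ j * F γ (σ γ) = F δ (σ δ) →
        GdX l (CF F) X h j := by
    rw [Filter.eventually_all_finset]
    intro F hF
    obtain ⟨e, he, hFe⟩ := mem_biUnion.1 hF
    exact hCF F ⟨e, he, hFe⟩
  have hlog : ∀ᶠ X : ℕ in atTop, 1 ≤ Real.log X :=
    (Real.tendsto_log_atTop.comp tendsto_natCast_atTop_atTop).eventually_ge_atTop _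
  filter_upwards [hall, hlog] with X hX hXl
  obtain ⟨C, hCd⟩ : ∃ C : ℕ, C = ∑ F ∈ EE.biUnion FF, CF F + 1 := ⟨_, rfl⟩
  rw [← hCd]
  -- the exceptional set
  obtain ⟨N0, hN0⟩ : ∃ N0 : ℕ, N0 = ((Ioc u (u + H)).filter (fun k : ℕ => (g ^ k * f).Adm)).card :=
    ⟨_, rfl⟩
  have hbd : ∀ e ∈ EE, (((Ioc u (u + H)).filter (fun k : ℕ => (g ^ k * f).Adm ∧ g ^ k * f ≠ 1 ∧
        AdE e (g ^ k * f).a (g ^ k * f).d ∧
        ¬ ∃ S : Finset (Fin 4), 1 + 1 ≤ S.card ∧ ∀ γ ∈ S, ∀ δ ∈ S, γ < δ →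
          GdX l C X (g ^ k * f) (e δ - e γ))).card : ℝ) ≤ ε / (EE.card + 1) * N0 := by
    intro e he
    have h1 := (hFF e he).2 (GdX l C X) (by
      intro F hFe
      have hFm : F ∈ EE.biUnion FF := mem_biUnion.2 ⟨e, he, hFe⟩
      obtain ⟨S, σ, hS, h⟩ := hX F hFm
      refine ⟨S, σ, hS, fun γ hγ δ hδ k _ _ _ _ j _ _ hj => ?_⟩
      refine (h γ hγ δ hδ _ j hj).mono (hCF1 F) ?_ hXl
      have := single_le_sum (f := CF) (fun _ _ => Nat.zero_le _) hFm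
      omega)
    have h2 : (((Ioc (u : ℤ) (u + H)).filter (fun k : ℤ => (g ^ k.toNat * f).Adm)).card : ℝ) ≤
        N0 := by
      rw [hN0, Nat.cast_le]
      exact cint_le u H _ _ _ _ (fun k hk => hk)
    refine le_trans ?_ (h1.trans (mul_le_mul_of_nonneg_left h2 (by positivity)))
    rw [Nat.cast_le]
    refine cnat_le u H _ _ _ _ (fun k hk => ?_)
    rw [Int.toNat_natCast]
    exact hk
  have hcov : (Ioc u (u + H)).filter (fun k : ℕ => (g ^ k * f).Adm ∧ g ^ k * f ≠ 1 ∧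
        ((Icc 1 (Rw n (g ^ k * f))).filter (fun j => GdX l C X (g ^ k * f) j)).card < n) ⊆
      EE.biUnion (fun e => (Ioc u (u + H)).filter (fun k : ℕ => (g ^ k * f).Adm ∧ g ^ k * f ≠ 1 ∧
        AdE e (g ^ k * f).a (g ^ k * f).d ∧
        ¬ ∃ S : Finset (Fin 4), 1 + 1 ≤ S.card ∧ ∀ γ ∈ S, ∀ δ ∈ S, γ < δ →
          GdX l C X (g ^ k * f) (e δ - e γ))) := by
    intro k hk
    obtain ⟨hkI, hkA, hk1, hkn⟩ := mem_filter.1 hk
    obtain ⟨e, he1, he2, he3, he4⟩ := four' hkA _ hkn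
    have hRw := Rw_le n (g ^ k * f)
    have heEE : e ∈ EE := by
      rw [hEE, mem_filter, Fintype.mem_piFinset]
      exact ⟨fun γ => by have := he2 γ; rw [mem_range]; omega, he1⟩
    rw [mem_biUnion]
    refine ⟨e, heEE, mem_filter.2 ⟨hkI, hkA, hk1, he3, ?_⟩⟩
    rintro ⟨S, hS, hcl⟩
    obtain ⟨γ, hγ, δ, hδ, hne⟩ := one_lt_card.1 (by omega : 1 < S.card)
    have key : ∀ γ ∈ S, ∀ δ ∈ S, γ < δ → False := by
      intro γ hγ δ hδ hlt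
      have h1 := hcl γ hγ δ hδ hlt
      have h2 := he4 γ δ hlt
      have h3 := he1 hlt
      have h4 := he2 δ
      exact h2 (mem_filter.2 ⟨mem_Icc.2 ⟨by omega, by omega⟩, h1⟩)
    rcases lt_or_gt_of_ne hne with hlt | hlt
    · exact key γ hγ δ hδ hlt
    · exact key δ hδ γ hγ hlt
  rw [← hN0]
  calc _ ≤ ((EE.biUnion (fun e => (Ioc u (u + H)).filter (fun k : ℕ => (g ^ k * f).Adm ∧
        g ^ k * f ≠ 1 ∧ AdE e (g ^ k * f).a (g ^ k * f).d ∧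
        ¬ ∃ S : Finset (Fin 4), 1 + 1 ≤ S.card ∧ ∀ γ ∈ S, ∀ δ ∈ S, γ < δ →
          GdX l C X (g ^ k * f) (e δ - e γ)))).card : ℝ) := by
        rw [Nat.cast_le]
        exact card_le_card hcov
    _ ≤ ∑ e ∈ EE, (((Ioc u (u + H)).filter (fun k : ℕ => (g ^ k * f).Adm ∧ g ^ k * f ≠ 1 ∧
        AdE e (g ^ k * f).a (g ^ k * f).d ∧
        ¬ ∃ S : Finset (Fin 4), 1 + 1 ≤ S.card ∧ ∀ γ ∈ S, ∀ δ ∈ S, γ < δ →
          GdX l C X (g ^ k * f) (e δ - e γ))).card : ℝ) := by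
        exact_mod_cast card_biUnion_le
    _ ≤ ∑ _e ∈ EE, ε / (EE.card + 1) * N0 := sum_le_sum hbd
    _ = EE.card * (ε / (EE.card + 1) * N0) := by rw [sum_const, nsmul_eq_mul]
    _ ≤ ε * N0 := by
        have h1 : (EE.card : ℝ) * (ε / (EE.card + 1)) ≤ ε := by
          rw [mul_div_assoc', div_le_iff₀ (by positivity)]
          nlinarith
        calc (EE.card : ℝ) * (ε / (EE.card + 1) * N0) = (EE.card * (ε / (EE.card + 1))) * N0 := by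
              ring
          _ ≤ ε * N0 := mul_le_mul_of_nonneg_right h1 (Nat.cast_nonneg _)

end Pool.Agent.K1H50.AS
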